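import Pool.Agent.Helper18.UW.GoalsA
import Pool.Agent.Lead.RwMain

/-! Packet UFin of project UW (MP_d3128a_ag, helper18): the main theorem. -/

set_option autoImplicit false

namespace Pool.Agent.Helper75.UW

open Finset
open Pool.Agent.Lead.Sh
open Pool.Agent.Helper18.UW

/-- `lg M ≤ 10 (1 + log M)`. -/
theorem lg_le {M : ℕ} (hM : 1 ≤ M) : (lg M : ℝ) ≤ 10 * (1 + Real.log M) := by
  have h1 : (2 : ℝ) ^ Nat.log 2 M ≤ M := by
    exact_mod_cast Nat.pow_log_le_self 2 (by omega : M ≠ 0)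
  have h2 : (Nat.log 2 M : ℝ) * Real.log 2 ≤ Real.log M := by
    rw [← Real.log_pow]
    exact Real.log_le_log (by positivity) h1
  have h3 := Real.log_two_gt_d9
  have h4 : 0 ≤ Real.log M := Real.log_nonneg (by exact_mod_cast hM)
  have h5 : (0 : ℝ) ≤ Nat.log 2 M := Nat.cast_nonneg _
  unfold lg
  push_cast
  nlinarith

theorem goalUFin : GoalUFin := by
  intro h
  refine ⟨2 ^ 400 * 1000, by positivity, ?_⟩
  intro s m d hm hz hd
  have hnat : 2 ^ 400 * lg (m 0) ^ 3 * m 0 ≤ d := by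
    rcases Nat.eq_zero_or_pos (m 0) with h0 | h0
    · rw [h0, mul_zero]
      exact Nat.zero_le _
    · have h1 := lg_le h0
      have h2 : ((lg (m 0) : ℝ)) ^ 3 ≤ (10 * (1 + Real.log (m 0))) ^ 3 :=
        pow_le_pow_left₀ (Nat.cast_nonneg _) h1 3
      have h3 : ((2 ^ 400 * lg (m 0) ^ 3 * m 0 : ℕ) : ℝ) ≤ d := by
        refine le_trans ?_ hd
        push_cast
        calc (2 : ℝ) ^ 400 * (lg (m 0) : ℝ) ^ 3 * (m 0 : ℝ)
            ≤ 2 ^ 400 * (10 * (1 + Real.log (m 0))) ^ 3 * (m 0 : ℝ) :=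
              mul_le_mul_of_nonneg_right (mul_le_mul_of_nonneg_left h2 (by positivity))
                (Nat.cast_nonneg _)
          _ = 2 ^ 400 * 1000 * (m 0 : ℝ) * (1 + Real.log (m 0)) ^ 3 := by ring
      exact_mod_cast h3
  have hok := h s m d hm hz hnat
  have hcard : (triD 0 d).card = (d + 2).choose 2 := card_triD d
  unfold OkU at hok
  rw [hcard] at hok
  exact Pool.Agent.Lead.Rw.concl s m d hok

end Pool.Agent.Helper75.UW
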